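import Pool.Agent.Helper30_Sph.Stmts

/-!
# Squad SPH, module FIN: the internal form of the main theorem
-/

namespace Pool.Agent.Sph.H65

open Pool.Agent.Helper30L2

theorem fin (hUpp : UppStmt) (hDua : DuaStmt) : FinStmt := by
  intro P _ _ _ n
  induction n using Nat.strong_induction_on with
  | _ n ih =>
    intro S hS ε i hi
    have hup : ∀ (ε : Sgn P) (i : ℤ), (n : ℤ) < 2 * i → bb ε (comparability P) S i = 0 := by
      refine hUpp P n S hS ?_
      intro m hm A _ hodd hA ε' i'
      refine ih m hm A hA ε' i' ?_
      intro h
      obtain ⟨k, hk⟩ := hodd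
      omega
    rcases lt_or_gt_of_ne hi with h | h
    · refine hDua P (comparability P) n S hS ε i ?_
      refine hup ε _ ?_
      omega
    · exact hup ε i h

end Pool.Agent.Sph.H65
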